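import Pool.Agent.H970.RN.Defs
import Pool.Graph.R_seed8.Y13.QM.Fin

/-!
# The influence of the boundary for general couplings, by truncation
-/

set_option autoImplicit false
set_option linter.unusedSectionVars false

noncomputable section

namespace Pool.Agent.H643.RN

open MvPolynomial MeasureTheory Pool.Agent.H5R2.ON Pool.Agent.H717R2.ON3 Pool.Agent.H983R2.ONJ
open Pool.Agent.H983R2.ONJ.Aux993 Pool.Agent.H983R2.ONJ.AuxFin269
open Pool.Agent.Y13.QM Pool.Agent.H970.RG Pool.Agent.H970.RN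

theorem inf_of (hM : Pool.Agent.H970.RN.S_main) (hG : Pool.Agent.H970.RN.S_gib) :
    Pool.Agent.H970.RN.S_inf := by
  intro a ha
  obtain ⟨K, hK, hnice⟩ := nice_lin a ha
  obtain ⟨C, hC, htr⟩ := trunc_lin a ha
  obtain ⟨C₀, hC₀, hmain⟩ := hM
  refine ⟨C₀ * (1 + K) + C, by nlinarith, ?_⟩
  intro A hA N hN n R hR L _ hL c hc p η i
  have hN0 : N ≠ 0 := by omega
  have hNr : (0 : ℝ) < N := by
    have : 0 < N := by omega
    exact_mod_cast this
  have hAN : 0 ≤ A / N := div_nonneg hA hNr.le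
  have h400 : (1 : ℝ) ≤ 400 ^ n := one_le_pow₀ (by norm_num)
  have hR0 : Real.exp (C₀ * (1 + A * K / N)) * 400 ^ n ≤ R := by
    refine le_trans (mul_le_mul_of_nonneg_right (Real.exp_le_exp.2 ?_) (by positivity)) hR
    have h1 : A * K / N = K * (A / N) := by ring
    rw [h1]
    have h2 : C₀ * (1 + K * (A / N)) ≤ C₀ * (1 + K) * (1 + A / N) := by
      rw [mul_assoc]
      refine mul_le_mul_of_nonneg_left ?_ (by linarith)
      nlinarith
    have h3 : 0 ≤ C * (1 + A / N) := by positivity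
    nlinarith
  have hR1 : 1 ≤ R := by
    have h1 : 1 ≤ Real.exp (C₀ * (1 + A * K / N)) := Real.one_le_exp (by positivity)
    nlinarith
  have hsq : 1 ≤ √R := Real.one_le_sqrt.2 hR1
  obtain ⟨k, M, hM0, hkc, hkr, hcomp⟩ := htr A hA L c hc p R (√R) hR1 (Real.sqrt_nonneg R)
  have hNice := hnice A hA L k M (√R) hM0 (Real.sqrt_nonneg R) hkc hkr
  have h1 : |gH (fun S : Conf N L => (1 / (M : ℝ)) * enG (gJ k) S) (ball p R) η
      (fun S => cc i (S p))| ≤ (1 / 2) ^ (2 ^ n) := by
    obtain ⟨W, hW⟩ := hG N hN0 L (gJ k) (1 / (M : ℝ)) (ball p R) η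
    have h2 := hmain N hN (A * K) (by positivity) n R hR0 L hL (gJ k) (1 / (M : ℝ)) (√R) hNice
      hsq le_rfl p W i
    rw [hW] at h2
    have h3 : (fun S : Conf N L => eval (ptN S) (X (p, i) : AlgN N (Tor L))) =
        fun S => cc i (S p) := by
      funext S
      rw [eval_X]
      rfl
    rw [h3] at h2
    exact h2
  have hFc : Continuous (fun S : Conf N L => cc i (S p)) :=
    (st_cc_cont _).comp (continuous_apply _)
  have h2 := hcomp N hN0 η (fun S => cc i (S p)) hFc.measurable (fun S => st_cc_abs_le _ _)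
  have h3 : gH (pS c) (ball p R) η (fun S => cc i (S p)) =
      gH (fun S : Conf N L => (1 / (M : ℝ)) * enG (gJ k) S) (ball p R) η
        (fun S => cc i (S p)) +
      (gH (pS c) (ball p R) η (fun S => cc i (S p)) -
        gH (fun S : Conf N L => (1 / (M : ℝ)) * enG (gJ k) S) (ball p R) η
          (fun S => cc i (S p))) := by ring
  have h4 : Real.exp (C * (1 + A) * R ^ 2 * Real.exp (-(a / 2) * √R)) - 1 ≤
      Real.exp ((C₀ * (1 + K) + C) * (1 + A) * R ^ 2 * Real.exp (-(a / 2) * √R)) - 1 := by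
    refine sub_le_sub_right (Real.exp_le_exp.2 ?_) 1
    refine mul_le_mul_of_nonneg_right ?_ (Real.exp_pos _).le
    refine mul_le_mul_of_nonneg_right ?_ (by positivity)
    refine mul_le_mul_of_nonneg_right ?_ (by positivity)
    have : 0 ≤ C₀ * (1 + K) := by positivity
    linarith
  rw [h3]
  exact (abs_add_le _ _).trans (add_le_add h1 (h2.trans h4))

end Pool.Agent.H643.RN
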